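import Pool.Graph.R_pool_sql_team_seeded_9f66d723.W5h59.Bu.Rad

/-!
# Extensions of locally finite groups by periodic commutative groups
-/

set_option autoImplicit false

namespace Pool.Agent.H155.CT

open Pool.Agent.W5h59.Bu (LFn)
open scoped commutatorElement

universe u

/-- periodic commutative groups are locally finite -/
theorem lfn_of_comm {A : Type u} [Group A] (hc : ∀ x y : A, x * y = y * x)
    (h : ∀ x : A, ∃ n : ℕ, 0 < n ∧ x ^ n = 1) : LFn A := by
  letI : CommGroup A := { ‹Group A› with mul_comm := hc }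
  intro S hS
  induction S, hS using Set.Finite.induction_on with
  | empty => rw [Subgroup.closure_empty]; infer_instance
  | @insert a S ha hS ih =>
    obtain ⟨k, hk, hak⟩ := h a
    have hk' : (0 : ℤ) < (k : ℕ) := by exact_mod_cast hk
    have h1 : (Subgroup.closure (insert a S) : Set A) ⊆
        (fun z : A × A => z.1 * z.2) '' (((fun i : ℕ => a ^ i) '' Set.Iio k) ×ˢ
          (Subgroup.closure S : Set A)) := by
      intro x hx
      rw [SetLike.mem_coe, Set.insert_eq, Subgroup.closure_union, Subgroup.mem_sup] at hx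
      obtain ⟨y, hy, z, hz, rfl⟩ := hx
      rw [Subgroup.mem_closure_singleton] at hy
      obtain ⟨m, rfl⟩ := hy
      refine ⟨(a ^ m, z), ⟨⟨(m % (k : ℕ)).toNat, ?_, ?_⟩, hz⟩, rfl⟩
      · have h2 := Int.emod_lt_of_pos m hk'
        have h3 := Int.emod_nonneg m hk'.ne'
        rw [Set.mem_Iio]
        omega
      · have h3 := Int.emod_nonneg m hk'.ne'
        show a ^ (m % (k : ℕ)).toNat = a ^ m
        rw [← zpow_natCast, Int.toNat_of_nonneg h3]
        conv_rhs => rw [← Int.emod_add_mul_ediv m (k : ℕ)]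
        rw [zpow_add, zpow_mul, zpow_natCast, hak, one_zpow, mul_one]
    refine Set.Finite.to_subtype (Set.Finite.subset ?_ h1)
    exact Set.Finite.image _ (((Set.finite_Iio k).image _).prod (Set.toFinite _))

theorem lfn_of_periodic {G : Type u} [Group G] (N : Subgroup G) [N.Normal]
    (hN : Pool.Agent.W5h59.Bu.LFn N) (hc : commutator G ≤ N)
    (hp : ∀ g : G, ∃ n : ℕ, 0 < n ∧ g ^ n ∈ N) : Pool.Agent.W5h59.Bu.LFn G := by
  refine LFn.ext N hN (lfn_of_comm ?_ ?_)
  · intro x y
    obtain ⟨x, rfl⟩ := QuotientGroup.mk'_surjective N x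
    obtain ⟨y, rfl⟩ := QuotientGroup.mk'_surjective N y
    rw [← map_mul, ← map_mul, QuotientGroup.mk'_eq_mk']
    refine ⟨y⁻¹ * x⁻¹ * y * x, hc ?_, by group⟩
    have e : y⁻¹ * x⁻¹ * y * x = ⁅y⁻¹, x⁻¹⁆ := by
      rw [commutatorElement_def]; group
    rw [e]
    exact Subgroup.commutator_mem_commutator (Subgroup.mem_top _) (Subgroup.mem_top _)
  · intro x
    obtain ⟨x, rfl⟩ := QuotientGroup.mk'_surjective N x
    obtain ⟨n, hn, hx⟩ := hp x
    refine ⟨n, hn, ?_⟩
    rw [← map_pow, QuotientGroup.mk'_apply, QuotientGroup.eq_one_iff]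
    exact hx

end Pool.Agent.H155.CT
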